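import Pool.Agent.V11242.SP.Exists
import Pool.Agent.V11242.SP.Ground

/-!
# MP_ec3397_lc: the assertion `(∗)` does not imply the continuum hypothesis

* There are sets `K`, `Ω`, a linear order on `Ω` and a preordered set of forcing conditions which
  forces the sentence `PhiFor K Ω`. (The conditions are pairs of a countable partial function from
  `Λ × ω₁` to `2` and a finite partial function from `K × ω` to `2`, where `K` is of size `2^𝔠` and
  `Λ` of size `2^K`. Here `Ω` is `ω₁`, which is preserved.)
* In ZFC, `PhiFor K Ω` implies that `(∗)` holds and that the continuum is not `ℵ₁`.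

`PhiFor K Ω` says: all proper initial segments of `Ω` are countable, countable subsets of `Ω` are
bounded, `K` but not `Ω` can be mapped onto the power set of `ℕ`, and every family, indexed by `K`,
of unbounded subsets of `Ω` is split by a single subset of `Ω`.

The forcing language is the one of `Pool.Agent.Helper669.Forcing`: a sentence is the set of the
conditions which force it; `fnot`, `fand`, `fall` are the usual clauses of the definition of forcing
and `fimp`, `fex` are defined from them classically; names for subsets of a ground model set are
maps to sets of conditions, and `meets` is the usual membership clause. `PhiHolds P K Ω` is the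
translation of `PhiFor K Ω` into the forcing language.
-/

set_option autoImplicit false

namespace Pool.Agent.Results.MP_ec3397_lc.StarDoesNotImplyCH

open Cardinal Pool.Agent.V11242.SP

theorem result :
    (∃ (K Ω : Type) (_ : LinearOrder Ω) (P : Type) (_ : Preorder P), Nonempty P ∧
      ∀ p : P, p ∈ PhiHolds P K Ω) ∧
    (∀ (K Ω : Type) [LinearOrder Ω], PhiFor K Ω → Star ∧ (𝔠 : Cardinal.{0}) ≠ ℵ_ 1) :=
  ⟨⟨KK, Om, inferInstance, Cnd (Set KK × Om) (KK × ℕ), inferInstance,
    ⟨(⟨∅, Set.countable_empty, fun _ _ _ h => h.elim⟩,
      ⟨∅, Set.finite_empty, fun _ _ _ h => h.elim⟩)⟩, exists_forcing⟩,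
    fun _ _ _ h => ⟨star_of_phi h, not_ch_of_phi h⟩⟩

end Pool.Agent.Results.MP_ec3397_lc.StarDoesNotImplyCH
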